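import Pool.Agent.SZT.StmtsB

/-! SZT, row BOT: from `B.BouStmt` (any field, value group) to `BOutStatement` (number field). -/

noncomputable section

open Polynomial NumberField H58Q

namespace Pool.Agent.SZT.H82

open Pool.Agent.SZT

theorem mem_MI {K : Type} [Field K] {f A B U W : K[X]} (hA : A ∣ B ^ 2 - f)
    (h : (⟨U, W⟩ : Q K f) ∈ MI f A B) : A ∣ U + B * W := by
  unfold MI at h
  rw [Ideal.mem_span_pair] at h
  obtain ⟨a, b, hab⟩ := h
  have h1 := congrArg QuadraticAlgebra.re hab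
  have h2 := congrArg QuadraticAlgebra.im hab
  simp only [QuadraticAlgebra.re_add, QuadraticAlgebra.im_add, QuadraticAlgebra.re_mul,
    QuadraticAlgebra.im_mul] at h1 h2
  obtain ⟨t, ht⟩ := hA
  refine ⟨a.re + a.im * B - t * b.im, ?_⟩
  rw [← h1, ← h2]
  linear_combination -b.im * ht

theorem pow_spec {K : Type} [Field K] {f p B : K[X]} (hp : p ∣ B ^ 2 - f) (u : Q K f) (M : ℕ) :
    p ∣ ((u ^ M).re - B * (u ^ M).im) - (u.re - B * u.im) ^ M := by
  induction M with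
  | zero =>
    have h1 : (1 : Q K f).re = 1 := rfl
    have h2 : (1 : Q K f).im = 0 := rfl
    rw [pow_zero, pow_zero, h1, h2]
    simp
  | succ M ih =>
    obtain ⟨t, ht⟩ := hp
    obtain ⟨r, hr⟩ := ih
    refine ⟨r * (u.re - B * u.im) - t * ((u ^ M).im * u.im), ?_⟩
    rw [pow_succ, pow_succ, QuadraticAlgebra.re_mul, QuadraticAlgebra.im_mul]
    linear_combination (u.re - B * u.im) * hr - (u ^ M).im * u.im * ht

theorem coprime_of_pow {K : Type} [Field K] {f A B U W : K[X]} {M : ℕ} (h2 : (2 : K) ≠ 0)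
    (hA : A.Monic) (hd : A ∣ B ^ 2 - f) (hc : IsCoprime A f) (hM : 0 < M)
    (hI : (MI f A B) ^ M = Ideal.span {(⟨U, W⟩ : Q K f)}) (hN : U ^ 2 - f * W ^ 2 = A ^ M) :
    IsCoprime A U := by
  refine isCoprime_of_prime_dvd (fun h => hA.ne_zero h.1) ?_
  intro p hp hpA hpU
  have hpf : ¬ p ∣ f := fun h => hp.not_isUnit (hc.isUnit_of_dvd' hpA h)
  have hpW : p ∣ W := by
    have h1 : p ∣ f * W ^ 2 := by
      have h3 : f * W ^ 2 = U ^ 2 - A ^ M := by linear_combination -hN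
      rw [h3]
      exact dvd_sub (dvd_pow hpU two_ne_zero) (dvd_pow hpA hM.ne')
    rcases hp.dvd_or_dvd h1 with h | h
    · exact absurd h hpf
    · exact hp.dvd_of_dvd_pow h
  have hmem : (⟨-B, 1⟩ : Q K f) ^ M ∈ Ideal.span {(⟨U, W⟩ : Q K f)} := by
    rw [← hI]
    refine Ideal.pow_mem_pow ?_ M
    exact Ideal.subset_span (by simp)
  rw [Ideal.mem_span_singleton] at hmem
  obtain ⟨t, ht⟩ := hmem
  obtain ⟨U', rfl⟩ := hpU
  obtain ⟨W', rfl⟩ := hpW
  have hspec := pow_spec (hpA.trans hd) (⟨-B, 1⟩ : Q K f) M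
  have hre : p ∣ ((⟨-B, 1⟩ : Q K f) ^ M).re := by
    rw [ht, QuadraticAlgebra.re_mul]
    refine ⟨U' * t.re + f * W' * t.im, by ring⟩
  have him : p ∣ ((⟨-B, 1⟩ : Q K f) ^ M).im := by
    rw [ht, QuadraticAlgebra.im_mul]
    refine ⟨U' * t.im + W' * t.re, by ring⟩
  have hB : p ∣ (-B - B * 1) ^ M := by
    have h5 := dvd_sub (dvd_sub hre (him.mul_left B)) hspec
    have h6 : ((⟨-B, 1⟩ : Q K f) ^ M).re - B * ((⟨-B, 1⟩ : Q K f) ^ M).im -
        (((⟨-B, 1⟩ : Q K f) ^ M).re - B * ((⟨-B, 1⟩ : Q K f) ^ M).im - (-B - B * 1) ^ M) =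
        (-B - B * 1) ^ M := by ring
    rw [← h6]
    exact h5
  have hB2 : p ∣ -B - B * 1 := hp.dvd_of_dvd_pow hB
  have hB3 : p ∣ B := by
    have h7 : B = C (-(2 : K)⁻¹) * (-B - B * 1) := by
      have h8 : C (-(2 : K)⁻¹) * (-B - B * 1) = C ((2 : K)⁻¹) * C (2 : K) * B := by
        rw [C_neg]
        have h10 : (C (2 : K) : K[X]) = 2 := C_ofNat 2
        rw [h10]
        ring
      rw [h8, ← C_mul, inv_mul_cancel₀ h2, C_1, one_mul]
    rw [h7]
    exact hB2.mul_left _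
  apply hpf
  have h9 : f = B ^ 2 - (B ^ 2 - f) := by ring
  rw [h9]
  exact dvd_sub (dvd_pow hB3 two_ne_zero) (hpA.trans hd)

theorem value_group {K : Type} [Field K] [NumberField K] (v : FinitePlace K) (x : K)
    (hx : x ≠ 0) :
    ∃ k : ℤ, v x = ((Ideal.absNorm v.maximalIdeal.asIdeal : ℝ)⁻¹) ^ k := by
  have hq : (1 : ℝ) < (Ideal.absNorm v.maximalIdeal.asIdeal : ℝ) := by
    exact_mod_cast HeightOneSpectrum.one_lt_absNorm v.maximalIdeal
  have hq0 : ((Ideal.absNorm v.maximalIdeal.asIdeal : ℝ)) ≠ 0 := by positivity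
  obtain ⟨a, b, hb, rfl⟩ := IsFractionRing.div_surjective (A := 𝓞 K) x
  have hb0 : b ≠ 0 := nonZeroDivisors.ne_zero hb
  have ha0 : a ≠ 0 := by
    rintro rfl
    simp at hx
  have h1 := FinitePlace.apply_mul_absNorm_pow_eq_one v ha0
  have h2 := FinitePlace.apply_mul_absNorm_pow_eq_one v hb0
  set e := multiplicity v.maximalIdeal.asIdeal (Ideal.span {a})
  set e' := multiplicity v.maximalIdeal.asIdeal (Ideal.span {b})
  set q : ℝ := (Ideal.absNorm v.maximalIdeal.asIdeal : ℝ)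
  have h3 : v (algebraMap (𝓞 K) K a) = (q⁻¹) ^ e := by
    rw [inv_pow]
    exact eq_inv_of_mul_eq_one_left h1
  have h4 : v (algebraMap (𝓞 K) K b) = (q⁻¹) ^ e' := by
    rw [inv_pow]
    exact eq_inv_of_mul_eq_one_left h2
  refine ⟨(e : ℤ) - e', ?_⟩
  rw [map_div₀, h3, h4, zpow_sub₀ (inv_ne_zero hq0), zpow_natCast, zpow_natCast]

theorem bot (bou : B.BouStmt) : BOutStatement := by
  intro K _ _ v f n hmon hdeg hsq hnode hn hdisc A₁ B₁ N hM1 hN hprin
  have hq : (1 : ℝ) < (Ideal.absNorm v.maximalIdeal.asIdeal : ℝ) := by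
    exact_mod_cast HeightOneSpectrum.one_lt_absNorm v.maximalIdeal
  have hna : IsNonarchimedean v.val := fun x y => FinitePlace.add_le v x y
  have h2 : (2 : K) ≠ 0 := by
    intro h
    have h3 := hnode.1
    rw [h, map_zero] at h3
    exact zero_ne_one h3
  have hI : MI f A₁ B₁ ≠ ⊥ := by
    intro h
    have h3 : (⟨-B₁, 1⟩ : Q K f) ∈ MI f A₁ B₁ := Ideal.subset_span (by simp)
    rw [h, Ideal.mem_bot] at h3
    have h4 := congrArg QuadraticAlgebra.im h3
    simp at h4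
  obtain ⟨s, hs1, hs2, hs3⟩ := bou K v.val
    ((Ideal.absNorm v.maximalIdeal.asIdeal : ℝ)⁻¹) n f hna (by positivity)
    (inv_lt_one_of_one_lt₀ hq) (fun x hx => value_group v x hx) hmon hdeg hsq hnode
    (by
      rw [inv_pow]
      exact eq_inv_of_mul_eq_one_left hdisc) (MI f A₁ B₁) hI
  refine ⟨s, hs1 N hprin, hs2, ?_⟩
  intro k A B U W M hgood hcl hM hMe hspan hnorm
  have hcop : IsCoprime A U :=
    coprime_of_pow h2 hgood.monic hgood.dvd hgood.cop hM hspan hnorm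
  refine hs3 k A B U W M hgood.toMum (le_of_eq hgood.two) hcl hM hMe hnorm ?_ ?_
  · refine mem_MI hgood.dvd ?_
    have h5 : (⟨U, W⟩ : Q K f) ∈ (MI f A B) ^ M := by
      rw [hspan]
      exact Ideal.mem_span_singleton_self _
    exact Ideal.pow_le_self hM.ne' h5
  · intro h
    rw [resultant_eq_zero_iff] at h
    exact h.2 hcop

end Pool.Agent.SZT.H82
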