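import Pool.Agent.SZT.StmtsB

/-! SZT, row PMU: power series on the open unit disc of a complete ultrametric field. -/

noncomputable section

open Polynomial Filter Topology

namespace Pool.Agent.SZT.H82

open Pool.Agent.SZT.B

theorem norm_tsum_le_ultra {L : Type} [NormedField L] [IsUltrametricDist L] {ι : Type}
    {f : ι → L} {C : ℝ} (hC : 0 ≤ C) (h : ∀ i, ‖f i‖ ≤ C) : ‖∑' i, f i‖ ≤ C := by
  by_cases hf : Summable f
  · have h1 : Tendsto (fun s : Finset ι => ‖∑ i ∈ s, f i‖) atTop (𝓝 ‖∑' i, f i‖) :=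
      (hf.hasSum : Tendsto _ _ _).norm
    refine le_of_tendsto h1 (Eventually.of_forall fun s => ?_)
    exact IsUltrametricDist.norm_sum_le_of_forall_le_of_nonneg hC fun i _ => h i
  · rw [tsum_eq_zero_of_not_summable hf, norm_zero]
    exact hC

theorem pv_summable {L : Type} [NormedField L] [IsUltrametricDist L] [CompleteSpace L]
    (a : ℕ → L) (z : L) (ha : ∀ k, ‖a k‖ ≤ 1) (hz : ‖z‖ < 1) :
    Summable (fun k : ℕ => a k * z ^ k) := by
  apply NonarchimedeanAddGroup.summable_of_tendsto_cofinite_zero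
  rw [Nat.cofinite_eq_atTop]
  rw [tendsto_zero_iff_norm_tendsto_zero]
  refine squeeze_zero (fun _ => norm_nonneg _) (fun k => ?_)
    (tendsto_pow_atTop_nhds_zero_of_lt_one (norm_nonneg z) hz)
  rw [norm_mul, norm_pow]
  exact mul_le_of_le_one_left (pow_nonneg (norm_nonneg _) _) (ha k)

theorem pmu : PmuStmt := by
  intro L _ _ _
  refine ⟨?_, ?_, ?_⟩
  · intro a z ha hz
    have hs := pv_summable a z ha hz
    refine ⟨hs, ?_, ?_⟩
    · unfold pval
      refine norm_tsum_le_ultra zero_le_one fun k => ?_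
      rw [norm_mul, norm_pow]
      exact mul_le_one₀ (ha k) (pow_nonneg (norm_nonneg _) _)
        (pow_le_one₀ (norm_nonneg _) hz.le)
    · unfold pval
      rw [hs.tsum_eq_zero_add]
      simp only [pow_zero, mul_one, add_sub_cancel_left]
      refine norm_tsum_le_ultra (norm_nonneg z) fun k => ?_
      rw [norm_mul, norm_pow, pow_succ]
      have h1 : ‖z‖ ^ k ≤ 1 := pow_le_one₀ (norm_nonneg _) hz.le
      have h2 : 0 ≤ ‖z‖ ^ k := pow_nonneg (norm_nonneg _) _
      have h3 := ha (k + 1)
      have h4 : 0 ≤ ‖a (k + 1)‖ := norm_nonneg _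
      have h5 : 0 ≤ ‖z‖ := norm_nonneg _
      calc ‖a (k + 1)‖ * (‖z‖ ^ k * ‖z‖) ≤ 1 * (1 * ‖z‖) := by gcongr
        _ = ‖z‖ := by ring
  · intro a b z ha hb hz
    have hsa := pv_summable a z ha hz
    have hsb := pv_summable b z hb hz
    unfold pval
    haveI : NonarchimedeanRing L :=
      { is_nonarchimedean := NonarchimedeanAddGroup.is_nonarchimedean }
    have h1 := hsa.tsum_mul_tsum_eq_tsum_sum_range hsb (hsa.mul_of_nonarchimedean hsb)
    rw [h1]
    refine tsum_congr fun k => ?_
    rw [Finset.sum_mul]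
    refine Finset.sum_congr rfl fun i hi => ?_
    have h2 : i ≤ k := by
      rw [Finset.mem_range] at hi
      omega
    have h3 : z ^ k = z ^ i * z ^ (k - i) := by
      rw [← pow_add, Nat.add_sub_cancel' h2]
    rw [h3]
    ring
  · intro p z
    unfold pval
    rw [Polynomial.eval_eq_sum_range]
    rw [tsum_eq_sum (s := Finset.range (p.natDegree + 1))]
    intro k hk
    rw [Finset.mem_range, not_lt] at hk
    have h0 : p.coeff k = 0 := Polynomial.coeff_eq_zero_of_natDegree_lt (by omega)
    show p.coeff k * z ^ k = 0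
    rw [h0, zero_mul]

end Pool.Agent.SZT.H82
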