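import Pool.Agent.SZT.StmtsB
import Pool.Agent.SZT.StmtsC
import Pool.Agent.Helper58_UB.QDed

/-! SZT, row REP: reduced representatives (from REX). -/

noncomputable section

open Polynomial NumberField H58Q

namespace Pool.Agent.SZT.H82

open Pool.Agent.SZT

theorem rep (rex : RexStatement) : B.RepStmt := by
  intro K _ f h2 hmon hdeg hsq I hI
  haveI : Fact (Odd f.natDegree) := ⟨by rw [hdeg]; decide⟩
  haveI : IsDedekindDomain (Q K f) := H58Q.isDedekind (g := 2) (by rw [hdeg]) hsq h2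
  have hI0 : I ∈ nonZeroDivisors (Ideal (Q K f)) := mem_nonZeroDivisors_of_ne_zero hI
  obtain ⟨A, B, h, hM, hA, hc⟩ := rex K f h2 hsq hdeg (ClassGroup.mk0 ⟨I, hI0⟩)
  refine ⟨A, B, hM, hA, ?_⟩
  obtain ⟨x, y, hx, hy, hxy⟩ := ClassGroup.mk0_eq_mk0_iff.1 hc
  exact ⟨x, y, hx, hy, hxy⟩

end Pool.Agent.SZT.H82
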